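import Pool.Agent.Helper68_ABCT.Pairs

/-!
# CG2: the formula (R2) for generic vertices (MP_a17fcb_ag)
-/

open MvPolynomial

namespace ABCT.H68

open FlatCell

section lim

variable {K : Type*} [Field K]

/-- polynomials in `s` with constant term `a` -/
def Lim (f : RatFunc K) (a : K) : Prop :=
  ∃ g : Polynomial K, f = algebraMap (Polynomial K) (RatFunc K) g ∧ g.coeff 0 = a

theorem Lim.mul {f g : RatFunc K} {a b : K} (hf : Lim f a) (hg : Lim g b) : Lim (f * g) (a * b) := by
  obtain ⟨p, rfl, rfl⟩ := hf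
  obtain ⟨q, rfl, rfl⟩ := hg
  exact ⟨p * q, by rw [map_mul], by rw [Polynomial.mul_coeff_zero]⟩

theorem Lim.add {f g : RatFunc K} {a b : K} (hf : Lim f a) (hg : Lim g b) : Lim (f + g) (a + b) := by
  obtain ⟨p, rfl, rfl⟩ := hf
  obtain ⟨q, rfl, rfl⟩ := hg
  exact ⟨p + q, by rw [map_add], by rw [Polynomial.coeff_add]⟩

theorem Lim.sub {f g : RatFunc K} {a b : K} (hf : Lim f a) (hg : Lim g b) : Lim (f - g) (a - b) := by
  obtain ⟨p, rfl, rfl⟩ := hf
  obtain ⟨q, rfl, rfl⟩ := hg
  exact ⟨p - q, by rw [map_sub], by rw [Polynomial.coeff_sub]⟩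

theorem Lim.C (a : K) : Lim (RatFunc.C a) a :=
  ⟨Polynomial.C a, by rw [RatFunc.algebraMap_C], by simp⟩

theorem Lim.one : Lim (1 : RatFunc K) 1 := by simpa using Lim.C (1 : K)

theorem Lim.s : Lim (sVar K) 0 := ⟨Polynomial.X, by rw [RatFunc.algebraMap_X], by simp⟩

theorem Lim.list {f : ℕ → RatFunc K} {g : ℕ → K} (l : List ℕ) (h : ∀ x ∈ l, Lim (f x) (g x)) :
    Lim (l.map f).prod (l.map g).prod := by
  induction l with
  | nil => simpa using Lim.one
  | cons x l ih =>
    rw [List.map_cons, List.map_cons, List.prod_cons, List.prod_cons]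
    exact (h x List.mem_cons_self).mul (ih fun y hy => h y (List.mem_cons_of_mem _ hy))

theorem Lim.pp {f : ℕ → ℕ → RatFunc K} {g : ℕ → ℕ → K} (l : List ℕ)
    (h : ∀ x ∈ l, ∀ y ∈ l, Lim (f x y) (g x y)) : Lim (pp f l) (pp g l) := by
  induction l with
  | nil => exact Lim.one
  | cons x l ih =>
    exact (Lim.list l fun y hy => h x List.mem_cons_self y (List.mem_cons_of_mem _ hy)).mul
      (ih fun a ha b hb => h a (List.mem_cons_of_mem _ ha) b (List.mem_cons_of_mem _ hb))

theorem Lim.cr {f : ℕ → ℕ → RatFunc K} {g : ℕ → ℕ → K} (l l' : List ℕ)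
    (h : ∀ x ∈ l, ∀ y ∈ l', Lim (f x y) (g x y)) : Lim (cr f l l') (cr g l l') := by
  apply Lim.list
  intro x hx
  apply Lim.list
  intro y hy
  exact h x hx y hy

theorem Lim.split {f : RatFunc K} {a : K} (h : Lim f a) : ∃ P : Polynomial K,
    f = RatFunc.C a + sVar K * algebraMap (Polynomial K) (RatFunc K) P := by
  obtain ⟨g, rfl, rfl⟩ := h
  refine ⟨g.divX, ?_⟩
  conv_lhs => rw [← Polynomial.divX_mul_X_add g]
  rw [map_add, map_mul, RatFunc.algebraMap_C, RatFunc.algebraMap_X, add_comm, mul_comm]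

/-- the gap values of the degeneration -/
noncomputable def UU (a b : ℕ) (uA uB : ℕ → K) (k : ℕ) : RatFunc K :=
  if k < a then RatFunc.C (uB k)
  else if k + 1 < a + b then sVar K * RatFunc.C (uA (k - a))
  else RatFunc.C (uB (k + 1 - b))

variable (L A R : List ℕ) (q : ℕ) (uA uB : ℕ → K)

theorem tv_L (x : ℕ) (hx : x ∈ L) : tv (L ++ A ++ R) (UU L.length A.length uA uB) x =
    RatFunc.C (tv (L ++ [q] ++ R) uB x) := by
  have h1 : (L ++ A ++ R).idxOf x = L.idxOf x := by
    rw [List.idxOf_append_of_mem (List.mem_append_left _ hx), List.idxOf_append_of_mem hx]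
  have h2 : (L ++ [q] ++ R).idxOf x = L.idxOf x := by
    rw [List.idxOf_append_of_mem (List.mem_append_left _ hx), List.idxOf_append_of_mem hx]
  rw [tv, tv, h1, h2, map_sum]
  apply Finset.sum_congr rfl
  intro h hh
  have h3 := List.idxOf_lt_length_of_mem hx
  rw [Finset.mem_range] at hh
  rw [UU, if_pos (by omega)]

theorem idx_q (hq : q ∉ L) : (L ++ [q] ++ R).idxOf q = L.length := by
  rw [List.idxOf_append_of_mem (by simp), List.idxOf_append_of_notMem hq]
  simp

theorem sum_L : ∑ h ∈ Finset.range L.length, UU L.length A.length uA uB h =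
    RatFunc.C (∑ h ∈ Finset.range L.length, uB h) := by
  rw [map_sum]
  apply Finset.sum_congr rfl
  intro h hh
  rw [Finset.mem_range] at hh
  rw [UU, if_pos hh]

theorem tv_A (hq : q ∉ L) (x : ℕ) (hx : x ∈ A) (hx' : x ∉ L) :
    tv (L ++ A ++ R) (UU L.length A.length uA uB) x =
    RatFunc.C (tv (L ++ [q] ++ R) uB q) + sVar K * RatFunc.C (tv A uA x) := by
  have h1 : (L ++ A ++ R).idxOf x = L.length + A.idxOf x := by
    rw [List.idxOf_append_of_mem (List.mem_append_right _ hx), List.idxOf_append_of_notMem hx']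
  rw [tv, h1, Finset.sum_range_add, sum_L, tv, idx_q L R q hq, tv, map_sum RatFunc.C uA,
    Finset.mul_sum]
  congr 1
  apply Finset.sum_congr rfl
  intro h hh
  have h3 := List.idxOf_lt_length_of_mem hx
  rw [Finset.mem_range] at hh
  rw [UU, if_neg (by omega), if_pos (by omega), Nat.add_sub_cancel_left]

theorem tv_R (hA : A ≠ []) (x : ℕ) (hx2 : x ∉ L) (hx3 : x ∉ A)
    (hx4 : x ≠ q) :
    tv (L ++ A ++ R) (UU L.length A.length uA uB) x =
    RatFunc.C (tv (L ++ [q] ++ R) uB x) +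
      sVar K * RatFunc.C (∑ h ∈ Finset.range (A.length - 1), uA h) := by
  have h1 : (L ++ A ++ R).idxOf x = L.length + ((A.length - 1) + (1 + R.idxOf x)) := by
    rw [List.idxOf_append_of_notMem (by simp [hx2, hx3]), List.length_append]
    have := List.length_pos_iff.mpr hA
    omega
  have h2 : (L ++ [q] ++ R).idxOf x = L.length + (1 + R.idxOf x) := by
    rw [List.idxOf_append_of_notMem (by simp [hx2, hx4]), List.length_append]
    simp only [List.length_cons, List.length_nil]
    omega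
  rw [tv, tv, h1, h2]
  generalize 1 + R.idxOf x = n
  rw [Finset.sum_range_add, Finset.sum_range_add, sum_L, Finset.sum_range_add,
    map_add, map_sum RatFunc.C uA, Finset.mul_sum, map_sum RatFunc.C (fun h => uB (L.length + h))]
  have e1 : ∑ i ∈ Finset.range (A.length - 1), UU L.length A.length uA uB (L.length + i) =
      ∑ i ∈ Finset.range (A.length - 1), sVar K * RatFunc.C (uA i) := by
    apply Finset.sum_congr rfl
    intro h hh
    rw [Finset.mem_range] at hh
    rw [UU, if_neg (by omega), if_pos (by omega), Nat.add_sub_cancel_left]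
  have e2 : ∑ i ∈ Finset.range n,
      UU L.length A.length uA uB (L.length + (A.length - 1 + i)) =
      ∑ i ∈ Finset.range n, RatFunc.C (uB (L.length + i)) := by
    apply Finset.sum_congr rfl
    intro h hh
    have := List.length_pos_iff.mpr hA
    rw [UU, if_neg (by omega), if_neg (by omega)]
    congr 2
    omega
  rw [e1, e2]
  ring

end lim

theorem prod_lists {K : Type*} [CommSemiring K] (l : List ℕ) (hl : l.Nodup) (I : Finset ℕ)
    (hI : I ⊆ l.toFinset) (χ : ℕ → K) : ∏ i ∈ I, χ i = ((l.filter (· ∈ I)).map χ).prod := by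
  have h : I = (l.filter (· ∈ I)).toFinset := by
    ext x
    simp only [List.mem_toFinset, List.mem_filter, decide_eq_true_eq]
    exact ⟨fun h => ⟨List.mem_toFinset.mp (hI h), h⟩, fun h => h.2⟩
  conv_lhs => rw [h]
  exact List.prod_toFinset χ (hl.filter _)

/-- the correction factors -/
noncomputable def chi {K : Type*} [Field K] (L R : List ℕ) (q d : ℕ) (uB : ℕ → K) (i : ℕ) : K :=
  if i ∈ L then ((tv (L ++ [q] ++ R) uB q - tv (L ++ [q] ++ R) uB i) ^ d)⁻¹
  else if i ∈ R then ((tv (L ++ [q] ++ R) uB i - tv (L ++ [q] ++ R) uB q) ^ d)⁻¹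
  else 1

section main

variable {K : Type*} [Field K] (L A R : List ℕ) (ρ q d : ℕ) (uA uB c : ℕ → K)

theorem prod_inv_pow (l : List ℕ) (h : ℕ → K) :
    (l.map fun x => ((h x) ^ d)⁻¹).prod = ((l.map h).prod ^ d)⁻¹ := by
  induction l with
  | nil => simp
  | cons x l ih => rw [List.map_cons, List.prod_cons, ih, List.map_cons, List.prod_cons, mul_pow,
      mul_inv]

theorem prod_chi (hl : (L ++ A ++ R ++ [ρ]).Nodup) (I : Finset ℕ)
    (hI : I ⊆ (L ++ A ++ R ++ [ρ]).toFinset) :
    ∏ i ∈ I, chi L R q d uB i =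
      (((L.filter (· ∈ I)).map fun x => tv (L ++ [q] ++ R) uB q - tv (L ++ [q] ++ R) uB x).prod ^ d)⁻¹ *
      (((R.filter (· ∈ I)).map fun x => tv (L ++ [q] ++ R) uB x - tv (L ++ [q] ++ R) uB q).prod ^ d)⁻¹ := by
  rw [prod_lists _ hl I hI]
  simp only [List.filter_append, List.map_append, List.prod_append]
  have hl' := hl
  rw [List.nodup_append, List.nodup_append, List.nodup_append] at hl'
  obtain ⟨⟨⟨hL, hA, hLA⟩, hR, hLR⟩, -, hρ⟩ := hl'
  have e1 : ((L.filter (· ∈ I)).map (chi L R q d uB)).prod =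
      (((L.filter (· ∈ I)).map fun x => tv (L ++ [q] ++ R) uB q - tv (L ++ [q] ++ R) uB x).prod ^ d)⁻¹ := by
    rw [← prod_inv_pow]
    congr 1
    apply List.map_congr_left
    intro x hx
    rw [List.mem_filter] at hx
    rw [chi, if_pos hx.1]
  have e2 : ((A.filter (· ∈ I)).map (chi L R q d uB)).prod = 1 := by
    apply List.prod_eq_one
    intro y hy
    rw [List.mem_map] at hy
    obtain ⟨x, hx, rfl⟩ := hy
    rw [List.mem_filter] at hx
    rw [chi, if_neg, if_neg]
    · intro h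
      exact hLR x (List.mem_append_right _ hx.1) x h rfl
    · intro h
      exact hLA x h x hx.1 rfl
  have e3 : ((R.filter (· ∈ I)).map (chi L R q d uB)).prod =
      (((R.filter (· ∈ I)).map fun x => tv (L ++ [q] ++ R) uB x - tv (L ++ [q] ++ R) uB q).prod ^ d)⁻¹ := by
    rw [← prod_inv_pow]
    congr 1
    apply List.map_congr_left
    intro x hx
    rw [List.mem_filter] at hx
    rw [chi, if_neg, if_pos hx.1]
    intro h
    exact hLR x (List.mem_append_left _ h) x hx.1 rfl
  have e4 : ((([ρ] : List ℕ).filter (· ∈ I)).map (chi L R q d uB)).prod = 1 := by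
    apply List.prod_eq_one
    intro y hy
    rw [List.mem_map] at hy
    obtain ⟨x, hx, rfl⟩ := hy
    rw [List.mem_filter, List.mem_singleton] at hx
    obtain ⟨rfl, -⟩ := hx
    rw [chi, if_neg, if_neg]
    · intro h
      exact hρ x (List.mem_append_right _ h) x (by simp) rfl
    · intro h
      exact hρ x (List.mem_append_left _ (List.mem_append_left _ h)) x (by simp) rfl
  rw [e1, e2, e3, e4]
  ring

/-- the pair product of the whole list -/
theorem pp_split (hl : (L ++ A ++ R).Nodup) (hq : q ∉ L ++ A ++ R) (hA0 : A ≠ []) (I : Finset ℕ) :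
    ∃ F : RatFunc K, Lim F (pp (fun x y => tv (L ++ [q] ++ R) uB y - tv (L ++ [q] ++ R) uB x)
      (L.filter (· ∈ I) ++ R.filter (· ∈ I)) *
      (((L.filter (· ∈ I)).map fun x => tv (L ++ [q] ++ R) uB q - tv (L ++ [q] ++ R) uB x).prod *
      ((R.filter (· ∈ I)).map fun x => tv (L ++ [q] ++ R) uB x - tv (L ++ [q] ++ R) uB q).prod) ^
        (A.filter (· ∈ I)).length) ∧
      pp (fun x y => tv (L ++ A ++ R) (UU L.length A.length uA uB) y -
        tv (L ++ A ++ R) (UU L.length A.length uA uB) x) ((L ++ A ++ R).filter (· ∈ I)) =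
      sVar K ^ ((A.filter (· ∈ I)).length.choose 2) *
      (RatFunc.C (pp (fun x y => tv A uA y - tv A uA x) (A.filter (· ∈ I))) * F) := by
  rw [List.nodup_append, List.nodup_append] at hl
  obtain ⟨⟨hL, hA, hLA⟩, hR, hLR⟩ := hl
  simp only [List.mem_append, not_or] at hq
  obtain ⟨⟨hqL, hqA⟩, hqR⟩ := hq
  set tB := tv (L ++ [q] ++ R) uB with htB
  set tA := tv A uA with htA
  set T := tv (L ++ A ++ R) (UU L.length A.length uA uB) with hT
  have hTL : ∀ x ∈ L, T x = RatFunc.C (tB x) := fun x hx => tv_L L A R q uA uB x hx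
  have hTA : ∀ x ∈ A, T x = RatFunc.C (tB q) + sVar K * RatFunc.C (tA x) := fun x hx =>
    tv_A L A R q uA uB hqL x hx fun h => hLA x h x hx rfl
  have hTR : ∀ x ∈ R, T x = RatFunc.C (tB x) +
      sVar K * RatFunc.C (∑ h ∈ Finset.range (A.length - 1), uA h) := fun x hx =>
    tv_R L A R q uA uB hA0 x (fun h => hLR x (List.mem_append_left _ h) x hx rfl)
      (fun h => hLR x (List.mem_append_right _ h) x hx rfl) (by rintro rfl; exact hqR hx)
  have lL : ∀ x ∈ L, Lim (T x) (tB x) := fun x hx => by rw [hTL x hx]; exact Lim.C _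
  have lA : ∀ x ∈ A, Lim (T x) (tB q) := fun x hx => by
    rw [hTA x hx]; simpa using (Lim.C (tB q)).add (Lim.s.mul (Lim.C (tA x)))
  have lR : ∀ x ∈ R, Lim (T x) (tB x) := fun x hx => by
    rw [hTR x hx]
    simpa using (Lim.C (tB x)).add (Lim.s.mul (Lim.C (∑ h ∈ Finset.range (A.length - 1), uA h)))
  have mf : ∀ {l : List ℕ} {x : ℕ}, x ∈ l.filter (· ∈ I) → x ∈ l := fun h => (List.mem_filter.mp h).1
  refine ⟨pp (fun x y => T y - T x) (L.filter (· ∈ I)) *
    cr (fun x y => T y - T x) (L.filter (· ∈ I)) (A.filter (· ∈ I)) *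
    pp (fun x y => T y - T x) (R.filter (· ∈ I)) *
    cr (fun x y => T y - T x) (L.filter (· ∈ I)) (R.filter (· ∈ I)) *
    cr (fun x y => T y - T x) (A.filter (· ∈ I)) (R.filter (· ∈ I)), ?_, ?_⟩
  · have e1 := Lim.pp (f := fun x y => T y - T x) (g := fun x y => tB y - tB x)
      (L.filter (· ∈ I)) (fun x hx y hy => (lL y (mf hy)).sub (lL x (mf hx)))
    have e2 := Lim.cr (f := fun x y => T y - T x) (g := fun x _ => tB q - tB x)
      (L.filter (· ∈ I)) (A.filter (· ∈ I)) (fun x hx y hy => (lA y (mf hy)).sub (lL x (mf hx)))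
    have e3 := Lim.pp (f := fun x y => T y - T x) (g := fun x y => tB y - tB x)
      (R.filter (· ∈ I)) (fun x hx y hy => (lR y (mf hy)).sub (lR x (mf hx)))
    have e4 := Lim.cr (f := fun x y => T y - T x) (g := fun x y => tB y - tB x)
      (L.filter (· ∈ I)) (R.filter (· ∈ I)) (fun x hx y hy => (lR y (mf hy)).sub (lL x (mf hx)))
    have e5 := Lim.cr (f := fun x y => T y - T x) (g := fun _ y => tB y - tB q)
      (A.filter (· ∈ I)) (R.filter (· ∈ I)) (fun x hx y hy => (lR y (mf hy)).sub (lA x (mf hx)))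
    rw [cr_left (fun x => tB q - tB x)] at e2
    rw [cr_right (fun y => tB y - tB q)] at e5
    have := (((e1.mul e2).mul e3).mul e4).mul e5
    convert this using 1
    rw [pp_append]
    ring
  · have e1 : pp (fun x y => T y - T x) (A.filter (· ∈ I)) =
        sVar K ^ ((A.filter (· ∈ I)).length.choose 2) *
          RatFunc.C (pp (fun x y => tA y - tA x) (A.filter (· ∈ I))) := by
      rw [pp_map, ← pp_mul]
      apply pp_congr
      intro x hx y hy
      rw [hTA x (mf hx), hTA y (mf hy), map_sub]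
      ring
    rw [List.filter_append, List.filter_append, pp_append, pp_append, cr_append_left, e1]
    ring

end main

section fin

variable (L A R : List ℕ) (ρ q d r : ℕ) (SA SB : Net)
  (gA : ℕ → MvPolynomial SA.G ℕ) (gB : ℕ → MvPolynomial SB.G ℕ)

/-- values of the gaps of `SA` -/
noncomputable def uAv (h : ℕ) : (Net.tsum SA SB q).flat.F := gvL SA SB q (gA h)

/-- values of the gaps of `SB` -/
noncomputable def uBv (h : ℕ) : (Net.tsum SA SB q).flat.F := gvR SA SB q (gB h)

theorem gvR_sum (s : Finset ℕ) :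
    gvR SA SB q (∑ h ∈ s, gB h) = ∑ h ∈ s, uBv q SA SB gB h := by
  rw [gvR, eval₂_sum]
  rfl

theorem gvL_prs (l : List ℕ) (z : ℕ) (hl : l.Nodup) (J : Finset ℕ) :
    gvL SA SB q (∏ p ∈ Net.prs (l ++ [z]) J, ∑ h ∈ Finset.Ico p.1 p.2, gA h) =
      pp (fun x y => tv l (uAv q SA SB gA) y - tv l (uAv q SA SB gA) x) (l.filter (· ∈ J)) := by
  rw [← prs_prod l z hl, gvL, eval₂_prod]
  apply Finset.prod_congr rfl
  intro p _
  rw [eval₂_sum]
  rfl

theorem gvR_prs (l : List ℕ) (z : ℕ) (hl : l.Nodup) (J : Finset ℕ) :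
    gvR SA SB q (∏ p ∈ Net.prs (l ++ [z]) J, ∑ h ∈ Finset.Ico p.1 p.2, gB h) =
      pp (fun x y => tv l (uBv q SA SB gB) y - tv l (uBv q SA SB gB) x) (l.filter (· ∈ J)) := by
  rw [← prs_prod l z hl, gvR, eval₂_prod]
  apply Finset.prod_congr rfl
  intro p _
  rw [eval₂_sum]
  rfl

theorem psi_inr (h : Fin ((L ++ A ++ R ++ [ρ]).length - 2)) :
    (genFD L A R ρ q d r SA SB gA gB).psi (Sum.inr h) =
      UU L.length A.length (uAv q SA SB gA) (uBv q SA SB gB) h.1 := by
  simp only [FacetData.psi, genFD, UU]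
  by_cases h1 : h.1 < L.length
  · rw [if_neg (by omega), if_pos h1, if_pos h1, zpow_zero, one_mul]
    rfl
  · by_cases h2 : h.1 + 1 < L.length + A.length
    · rw [if_pos (by omega), if_neg h1, if_pos h2, if_neg h1, if_pos h2, zpow_one]
      rfl
    · rw [if_neg (by omega), if_neg h1, if_neg h2, if_neg h1, if_neg h2, zpow_zero, one_mul]
      rfl

theorem tv_q (hq : q ∉ L) {K : Type*} [CommRing K] (u : ℕ → K) :
    tv (L ++ [q] ++ R) u q = ∑ h ∈ Finset.range L.length, u h := by
  rw [tv, idx_q L R q hq]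

theorem tv_diff_L (hq : q ∉ L) {K : Type*} [CommRing K] (u : ℕ → K) (i : ℕ) (hi : i ∈ L) :
    tv (L ++ [q] ++ R) u q - tv (L ++ [q] ++ R) u i = ∑ h ∈ Finset.Ico (L.idxOf i) L.length, u h := by
  have h2 : (L ++ [q] ++ R).idxOf i = L.idxOf i := by
    rw [List.idxOf_append_of_mem (List.mem_append_left _ hi), List.idxOf_append_of_mem hi]
  rw [tv_q L R q hq, tv, h2, Finset.sum_Ico_eq_sub _ (List.idxOf_lt_length_of_mem hi).le]

theorem tv_diff_R (hq : q ∉ L) {K : Type*} [CommRing K] (u : ℕ → K) (i : ℕ) (hi : i ∉ L)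
    (hi' : i ≠ q) :
    tv (L ++ [q] ++ R) u i - tv (L ++ [q] ++ R) u q =
      ∑ h ∈ Finset.Ico L.length (L.length + 1 + R.idxOf i), u h := by
  have h2 : (L ++ [q] ++ R).idxOf i = L.length + 1 + R.idxOf i := by
    rw [List.idxOf_append_of_notMem (by simp [hi, hi']), List.length_append]
    simp only [List.length_cons, List.length_nil]
  rw [tv_q L R q hq, tv, h2, Finset.sum_Ico_eq_sub _ (by omega)]

theorem psi_inl (hl : (L ++ A ++ R).Nodup) (hq : q ∉ L ++ A ++ R) (i : ℕ) :
    (genFD L A R ρ q d r SA SB gA gB).psi (Sum.inl i) =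
      sVar _ ^ (if i ∈ A then -(d : ℤ) else 0) *
        RatFunc.C (xx (Sum.inl i) * chi L R q d (uBv q SA SB gB) i) := by
  rw [List.nodup_append, List.nodup_append] at hl
  obtain ⟨⟨hL, hA, hLA⟩, hR, hLR⟩ := hl
  simp only [List.mem_append, not_or] at hq
  obtain ⟨⟨hqL, hqA⟩, hqR⟩ := hq
  simp only [FacetData.psi, genFD, chi]
  congr 2
  rw [flat_x]
  congr 1
  by_cases h1 : i ∈ L
  · rw [if_pos h1, if_pos h1, gvR_sum, tv_diff_L L R q hqL _ i h1]
  · by_cases h2 : i ∈ R
    · rw [if_neg h1, if_pos h2, if_neg h1, if_pos h2, gvR_sum, tv_diff_R L R q hqL _ i h1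
        (by rintro rfl; exact hqR h2)]
    · rw [if_neg h1, if_neg h2, if_neg h1, if_neg h2]

theorem gen_P (hl : (L ++ A ++ R).Nodup) (I : Finset ℕ)
    (hI : I ∈ (Net.gen (L ++ A ++ R ++ [ρ]) (d + r)).M) :
    (genFD L A R ρ q d r SA SB gA gB).P I =
      (∏ i ∈ I, (genFD L A R ρ q d r SA SB gA gB).psi (Sum.inl i)) *
      pp (fun x y => tv (L ++ A ++ R) (UU L.length A.length (uAv q SA SB gA) (uBv q SA SB gB)) y -
        tv (L ++ A ++ R) (UU L.length A.length (uAv q SA SB gA) (uBv q SA SB gB)) x)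
        ((L ++ A ++ R).filter (· ∈ I)) := by
  rw [phi_P_eq]
  congr 1
  rw [← prs_prod _ ρ hl, ← eval_gen _ _ _ I hI]
  congr 1
  funext h
  exact psi_inr L A R ρ q d r SA SB gA gB h

theorem prod_psi (hl : (L ++ A ++ R).Nodup) (hq : q ∉ L ++ A ++ R) (I : Finset ℕ) :
    ∏ i ∈ I, (genFD L A R ρ q d r SA SB gA gB).psi (Sum.inl i) =
      sVar _ ^ (-(d : ℤ) * (A.filter (· ∈ I)).length) *
      RatFunc.C ((∏ i ∈ I, xx (Sum.inl i)) * ∏ i ∈ I, chi L R q d (uBv q SA SB gB) i) := by
  classical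
  have hA : A.Nodup := by
    rw [List.nodup_append, List.nodup_append] at hl
    exact hl.1.2.1
  rw [Finset.prod_congr rfl fun i _ => psi_inl L A R ρ q d r SA SB gA gB hl hq i,
    Finset.prod_mul_distrib, ← zpow_sum₀ s_ne_zero, ← map_prod, Finset.prod_mul_distrib]
  congr 2
  rw [← Finset.sum_filter, Finset.sum_const, nsmul_eq_mul, mul_comm]
  congr 2
  rw [← List.toFinset_card_of_nodup (hA.filter _)]
  congr 1
  ext x
  simp [and_comm]

theorem filter_congr' (l : List ℕ) (I J : Finset ℕ) (h : ∀ x ∈ l, x ∈ I ↔ x ∈ J) :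
    l.filter (· ∈ I) = l.filter (· ∈ J) := by
  apply List.filter_congr
  intro x hx
  simp only [h x hx]

/-- the coordinates of the 2-sum -/
theorem tsum_val (hl : (L ++ A ++ R ++ [ρ]).Nodup) (hq : q ∉ L ++ A ++ R ++ [ρ])
    (vA : VtxG (A ++ [q]) (d + 1) SA gA) (vB : VtxG (L ++ [q] ++ R ++ [ρ]) r SB gB) (I : Finset ℕ)
    (hI : I ∈ (Net.gen (L ++ A ++ R ++ [ρ]) (d + r)).M) :
    (Net.tsum SA SB q).flat.P I = (∏ i ∈ I, xx (Sum.inl i)) *
      ((if (A.filter (· ∈ I)).length = d + 1 then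
        pp (fun x y => tv A (uAv q SA SB gA) y - tv A (uAv q SA SB gA) x) (A.filter (· ∈ I)) *
        pp (fun x y => tv (L ++ [q] ++ R) (uBv q SA SB gB) y -
          tv (L ++ [q] ++ R) (uBv q SA SB gB) x) (L.filter (· ∈ I) ++ [q] ++ R.filter (· ∈ I))
        else 0) +
      (if (A.filter (· ∈ I)).length = d then
        pp (fun x y => tv A (uAv q SA SB gA) y - tv A (uAv q SA SB gA) x) (A.filter (· ∈ I)) *
        pp (fun x y => tv (L ++ [q] ++ R) (uBv q SA SB gB) y -
          tv (L ++ [q] ++ R) (uBv q SA SB gB) x) (L.filter (· ∈ I) ++ R.filter (· ∈ I))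
        else 0)) := by
  classical
  obtain ⟨vA1, -, vA3, -⟩ := vA
  obtain ⟨vB1, -, vB3, -⟩ := vB
  have hl0 := hl
  rw [List.nodup_append, List.nodup_append, List.nodup_append] at hl
  obtain ⟨⟨⟨hL, hA, hLA⟩, hR, hLR⟩, -, hρ⟩ := hl
  simp only [List.mem_append, not_or, List.mem_singleton] at hq
  obtain ⟨⟨⟨hqL, hqA⟩, hqR⟩, hqρ⟩ := hq
  obtain ⟨hI1, hI2⟩ := Finset.mem_powersetCard.mp hI
  have EA : SA.E.erase q = A.toFinset := by
    rw [vA3]
    ext x
    simp only [Finset.mem_erase, List.mem_toFinset, List.mem_append, List.mem_singleton]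
    constructor
    · rintro ⟨h1, h2 | h2⟩
      · exact h2
      · exact absurd h2 h1
    · intro h
      exact ⟨by rintro rfl; exact hqA h, Or.inl h⟩
  have EB : SB.E.erase q = (L ++ R ++ [ρ]).toFinset := by
    rw [vB3]
    ext x
    simp only [Finset.mem_erase, List.mem_toFinset, List.mem_append, List.mem_singleton]
    constructor
    · rintro ⟨h1, ((h2 | h2) | h2) | h2⟩
      · exact Or.inl (Or.inl h2)
      · exact absurd h2 h1
      · exact Or.inl (Or.inr h2)
      · exact Or.inr h2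
    · rintro ((h | h) | h)
      · exact ⟨by rintro rfl; exact hqL h, Or.inl (Or.inl (Or.inl h))⟩
      · exact ⟨by rintro rfl; exact hqR h, Or.inl (Or.inr h)⟩
      · exact ⟨by rintro rfl; exact hqρ h, Or.inr h⟩
  have hsub : I ⊆ SA.E.erase q ∪ SB.E.erase q := by
    rw [EA, EB]
    intro x hx
    have := hI1 hx
    simp only [Finset.mem_union, List.mem_toFinset, List.mem_append, List.mem_singleton] at this ⊢
    tauto
  have hqI : q ∉ I := by
    intro h
    have := hI1 h
    simp only [List.mem_toFinset, List.mem_append, List.mem_singleton] at this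
    tauto
  have hcA : (A.filter (· ∈ I)).length = (I ∩ A.toFinset).card := by
    rw [← List.toFinset_card_of_nodup (hA.filter _)]
    congr 1
    ext x
    simp [and_comm]
  have hdis : Disjoint (I ∩ A.toFinset) (I ∩ (L ++ R ++ [ρ]).toFinset) := by
    rw [Finset.disjoint_left]
    intro x hx hx'
    simp only [Finset.mem_inter, List.mem_toFinset, List.mem_append, List.mem_singleton] at hx hx'
    rcases hx'.2 with (h | h) | h
    · exact hLA x h x hx.2 rfl
    · exact hLR x (List.mem_append_right _ hx.2) x h rfl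
    · exact hρ x (List.mem_append_left _ (List.mem_append_right _ hx.2)) x (by simp [h]) rfl
  have hcard : (I ∩ A.toFinset).card + (I ∩ (L ++ R ++ [ρ]).toFinset).card = d + r := by
    rw [← Finset.card_union_of_disjoint hdis, ← Finset.inter_union_distrib_left, ← hI2]
    congr 1
    apply Finset.inter_eq_left.mpr
    rw [EA, EB] at hsub
    exact hsub
  have hqA' : q ∉ I ∩ A.toFinset := fun h => hqI (Finset.mem_inter.mp h).1
  have hqB' : q ∉ I ∩ (L ++ R ++ [ρ]).toFinset := fun h => hqI (Finset.mem_inter.mp h).1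
  have hBnd : (L ++ [q] ++ R).Nodup := by
    rw [List.nodup_append, List.nodup_append]
    refine ⟨⟨hL, by simp, ?_⟩, hR, ?_⟩
    · intro x hx y hy h
      rw [List.mem_singleton] at hy
      subst hy
      subst h
      exact hqL hx
    · intro x hx y hy h
      subst h
      rw [List.mem_append, List.mem_singleton] at hx
      rcases hx with hx | hx
      · exact hLR x (List.mem_append_left _ hx) x hy rfl
      · subst hx; exact hqR hy
  rw [P_eq]
  congr 1
  have hD : (Net.tsum SA SB q).flat.Δ I = rename Sum.inl (SA.Δ (I ∩ A.toFinset)) *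
      rename Sum.inr (SB.Δ (insert q (I ∩ (L ++ R ++ [ρ]).toFinset))) +
      rename Sum.inl (SA.Δ (insert q (I ∩ A.toFinset))) *
      rename Sum.inr (SB.Δ (I ∩ (L ++ R ++ [ρ]).toFinset)) := by
    show Net.Δ (Net.tsum SA SB q) I = _
    rw [Net.Δ, if_pos hsub, EA, EB]
  rw [hD, eval₂_add, eval₂_mul, eval₂_mul, eval₂_rename, eval₂_rename, eval₂_rename, eval₂_rename]
  change gvL SA SB q (SA.Δ (I ∩ A.toFinset)) *
    gvR SA SB q (SB.Δ (insert q (I ∩ (L ++ R ++ [ρ]).toFinset))) +
    gvL SA SB q (SA.Δ (insert q (I ∩ A.toFinset))) *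
    gvR SA SB q (SB.Δ (I ∩ (L ++ R ++ [ρ]).toFinset)) = _
  have g0L : gvL SA SB q 0 = 0 := by rw [gvL, eval₂_zero]
  have g0R : gvR SA SB q 0 = 0 := by rw [gvR, eval₂_zero]
  have sA : I ∩ A.toFinset ⊆ (A ++ [q]).toFinset := by
    intro x hx
    simp only [Finset.mem_inter, List.mem_toFinset, List.mem_append, List.mem_singleton] at hx ⊢
    exact Or.inl hx.2
  have sA' : insert q (I ∩ A.toFinset) ⊆ (A ++ [q]).toFinset := by
    rw [Finset.insert_subset_iff]
    exact ⟨by simp, sA⟩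
  have sB : I ∩ (L ++ R ++ [ρ]).toFinset ⊆ (L ++ [q] ++ R ++ [ρ]).toFinset := by
    intro x hx
    simp only [Finset.mem_inter, List.mem_toFinset, List.mem_append, List.mem_singleton] at hx ⊢
    tauto
  have sB' : insert q (I ∩ (L ++ R ++ [ρ]).toFinset) ⊆ (L ++ [q] ++ R ++ [ρ]).toFinset := by
    rw [Finset.insert_subset_iff]
    exact ⟨by simp, sB⟩
  have mI : ∀ x ∈ L ++ R, x ∈ I ↔ x ∈ I ∩ (L ++ R ++ [ρ]).toFinset := by
    intro x hx
    rw [List.mem_append] at hx
    simp only [Finset.mem_inter, List.mem_toFinset, List.mem_append, List.mem_singleton]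
    tauto
  have fA : A.filter (· ∈ I ∩ A.toFinset) = A.filter (· ∈ I) := by
    apply filter_congr'
    intro x hx
    simp [hx]
  have fA' : A.filter (· ∈ insert q (I ∩ A.toFinset)) = A.filter (· ∈ I) := by
    apply filter_congr'
    intro x hx
    have : x ≠ q := by rintro rfl; exact hqA hx
    simp [hx, this]
  have fB : (L ++ [q] ++ R).filter (· ∈ I ∩ (L ++ R ++ [ρ]).toFinset) =
      L.filter (· ∈ I) ++ R.filter (· ∈ I) := by
    rw [List.filter_append, List.filter_append]
    have h1 : ([q] : List ℕ).filter (· ∈ I ∩ (L ++ R ++ [ρ]).toFinset) = [] := by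
      rw [List.filter_cons_of_neg (by simpa using fun h => absurd h hqI), List.filter_nil]
    rw [h1, List.append_nil]
    congr 1
    · apply filter_congr'
      intro x hx
      exact (mI x (List.mem_append_left _ hx)).symm
    · apply filter_congr'
      intro x hx
      exact (mI x (List.mem_append_right _ hx)).symm
  have fB' : (L ++ [q] ++ R).filter (· ∈ insert q (I ∩ (L ++ R ++ [ρ]).toFinset)) =
      L.filter (· ∈ I) ++ [q] ++ R.filter (· ∈ I) := by
    rw [List.filter_append, List.filter_append]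
    have h1 : ([q] : List ℕ).filter (· ∈ insert q (I ∩ (L ++ R ++ [ρ]).toFinset)) = [q] := by
      rw [List.filter_cons_of_pos (by simp), List.filter_nil]
    rw [h1]
    congr 1
    · congr 1
      apply filter_congr'
      intro x hx
      have : x ≠ q := by rintro rfl; exact hqL hx
      rw [Finset.mem_insert, mI x (List.mem_append_left _ hx)]
      simp [this]
    · apply filter_congr'
      intro x hx
      have : x ≠ q := by rintro rfl; exact hqR hx
      rw [Finset.mem_insert, mI x (List.mem_append_right _ hx)]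
      simp [this]
  congr 1
  · by_cases h : (A.filter (· ∈ I)).length = d + 1
    · rw [if_pos h]
      rw [hcA] at h
      rw [vA1, if_pos (Finset.mem_powersetCard.mpr ⟨sA, h⟩), vB1,
        if_pos (Finset.mem_powersetCard.mpr ⟨sB', by
          rw [Finset.card_insert_of_notMem hqB']; omega⟩), gvL_prs q SA SB gA A q hA,
        gvR_prs q SA SB gB _ ρ hBnd, fA, fB']
    · rw [if_neg h]
      rw [hcA] at h
      rw [vA1, if_neg, g0L, zero_mul]
      intro h'
      exact h (Finset.mem_powersetCard.mp h').2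
  · by_cases h : (A.filter (· ∈ I)).length = d
    · rw [if_pos h]
      rw [hcA] at h
      rw [vA1, if_pos (Finset.mem_powersetCard.mpr ⟨sA', by
          rw [Finset.card_insert_of_notMem hqA']; omega⟩), vB1,
        if_pos (Finset.mem_powersetCard.mpr ⟨sB, by omega⟩), gvL_prs q SA SB gA A q hA,
        gvR_prs q SA SB gB _ ρ hBnd, fA', fB]
    · rw [if_neg h]
      rw [hcA] at h
      rw [vA1, if_neg, g0L, zero_mul]
      intro h'
      apply h
      have := (Finset.mem_powersetCard.mp h').2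
      rw [Finset.card_insert_of_notMem hqA'] at this
      omega

/-- the gap values of `SB` are subtraction-free -/
theorem uBv_pos (r : ℕ) (vB : VtxG (L ++ [q] ++ R ++ [ρ]) r SB gB) (h : ℕ)
    (hh : h < L.length + R.length) : PosF (uBv q SA SB gB h) := by
  obtain ⟨-, -, -, -, hg⟩ := vB
  have hlen : (L ++ [q] ++ R ++ [ρ]).length = L.length + R.length + 2 := by
    simp only [List.length_append, List.length_cons, List.length_nil]; omega
  rcases hg with ⟨e, he⟩ | ⟨h3, -, h1⟩
  · have := he ⟨h, by omega⟩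
    simp only at this
    rw [uBv, this, gvR, eval₂_X]
    exact PosF.x _
  · have : h = 0 := by omega
    rw [this, uBv, h1, gvR, eval₂_one]
    exact PosF.one

theorem exponent (a d : ℕ) : ∃ N : ℕ, (-(d : ℤ) * a + (a.choose 2 : ℕ) =
    -((d * (d + 1) / 2 : ℕ) : ℤ) + N) ∧ (N = 0 ↔ (a = d ∨ a = d + 1)) := by
  have h1 : 2 * (a.choose 2 : ℤ) = a * (a - 1) := by
    have : ((a.choose 2 : ℕ) : ℚ) = a * (a - 1) / 2 := Nat.cast_choose_two ℚ a
    have h2 : (2 : ℚ) * ((a.choose 2 : ℕ) : ℚ) = a * (a - 1) := by rw [this]; ring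
    exact_mod_cast h2
  have h2 : 2 * ((d * (d + 1) / 2 : ℕ) : ℤ) = d * (d + 1) := by
    have := Nat.mul_div_cancel' (Nat.even_mul_succ_self d).two_dvd
    exact_mod_cast this
  have h3 : 0 ≤ ((a : ℤ) - d) * (a - d - 1) := by
    rcases lt_trichotomy (a : ℤ) (d : ℤ) with h | h | h
    · nlinarith
    · rw [h]; simp
    · nlinarith
  have h4 : 2 * (-(d : ℤ) * a + (a.choose 2 : ℕ) + ((d * (d + 1) / 2 : ℕ) : ℤ)) =
      ((a : ℤ) - d) * (a - d - 1) := by linear_combination h1 + h2
  refine ⟨(-(d : ℤ) * a + (a.choose 2 : ℕ) + ((d * (d + 1) / 2 : ℕ) : ℤ)).toNat, ?_, ?_⟩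
  · rw [Int.toNat_of_nonneg (by linarith)]
    ring
  · rw [Int.toNat_eq_zero]
    constructor
    · intro h
      have h5 : ((a : ℤ) - d) * (a - d - 1) = 0 := by linarith
      rcases mul_eq_zero.mp h5 with h6 | h6
      · left; omega
      · right; omega
    · rintro (h | h)
      · subst h; linarith [h4, (by ring : ((a : ℤ) - a) * (a - a - 1) = 0)]
      · subst h
        have : (((d + 1 : ℕ) : ℤ) - d) * (((d + 1 : ℕ) : ℤ) - d - 1) = 0 := by push_cast; ring
        linarith

theorem pp_q (f : ℕ → ℕ → (Net.tsum SA SB q).flat.F) (l₁ l₂ : List ℕ) :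
    pp f (l₁ ++ [q] ++ l₂) = pp f (l₁ ++ l₂) * ((l₁.map fun x => f x q).prod *
      (l₂.map fun x => f q x).prod) := by
  rw [pp_append, pp_append, pp_append, cr_append_left]
  have e1 : cr f l₁ [q] = (l₁.map fun x => f x q).prod := by
    rw [cr]; simp
  have e2 : cr f [q] l₂ = (l₂.map fun x => f q x).prod := by
    rw [cr]; simp
  have e3 : pp f [q] = 1 := by simp [pp]
  rw [e1, e2, e3]
  ring

end fin

/-- CG2 -/
theorem cg2 : Cg2Stmt := by
  classical
  intro L A R ρ q d r SA SB gA gB hG I hI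
  obtain ⟨⟨hl, -, -⟩, hq, hA, hB, vA, vB⟩ := hG
  have hlA : (L ++ A ++ R).Nodup := (List.nodup_append.mp hl).1
  have hqA : q ∉ L ++ A ++ R := fun h => hq (List.mem_append_left _ h)
  have hA0 : A ≠ [] := by
    rintro rfl
    generalize hl' : ([] ++ [q] : List ℕ) = l' at hA
    have : l'.length = 1 := by rw [← hl']; rfl
    cases hA with
    | gen _ h1 h2 => omega
    | black h => omega
    | white h => omega
  obtain ⟨hI1, hI2⟩ := Finset.mem_powersetCard.mp hI
  have hl' := hl
  rw [List.nodup_append, List.nodup_append, List.nodup_append] at hl'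
  obtain ⟨⟨⟨hL, hA', hLA⟩, hR, hLR⟩, -, hρ⟩ := hl'
  have hqA' := hqA
  simp only [List.mem_append, not_or] at hqA'
  obtain ⟨⟨hqL, hqA1⟩, hqR⟩ := hqA'
  obtain ⟨F, hF, hPP⟩ := pp_split L A R q (uAv q SA SB gA) (uBv q SA SB gB) hlA hqA hA0 I
  have hP := gen_P L A R ρ q d r SA SB gA gB hlA I hI
  rw [prod_psi L A R ρ q d r SA SB gA gB hlA hqA I, hPP,
    prod_chi L A R ρ q d _ hl I hI1] at hP
  have hT := tsum_val L A R ρ q d r SA SB gA gB hl hq vA vB I hI
  set a := (A.filter (· ∈ I)).length with ha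
  set XL := ((L.filter (· ∈ I)).map fun x => tv (L ++ [q] ++ R) (uBv q SA SB gB) q -
    tv (L ++ [q] ++ R) (uBv q SA SB gB) x).prod with hXL
  set XR := ((R.filter (· ∈ I)).map fun x => tv (L ++ [q] ++ R) (uBv q SA SB gB) x -
    tv (L ++ [q] ++ R) (uBv q SA SB gB) q).prod with hXR
  set ppA := pp (fun x y => tv A (uAv q SA SB gA) y - tv A (uAv q SA SB gA) x) (A.filter (· ∈ I))
    with hppA
  set ppB := pp (fun x y => tv (L ++ [q] ++ R) (uBv q SA SB gB) y -
    tv (L ++ [q] ++ R) (uBv q SA SB gB) x) (L.filter (· ∈ I) ++ R.filter (· ∈ I)) with hppB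
  have nL : XL ≠ 0 := by
    rw [hXL]
    apply List.prod_ne_zero
    intro h
    rw [List.mem_map] at h
    obtain ⟨x, hx, h⟩ := h
    rw [List.mem_filter] at hx
    rw [tv_diff_L L R q hqL _ x hx.1] at h
    refine PosF.ne_zero (PosF.sum _ ?_ _ ?_) h
    · rw [Finset.nonempty_Ico]; exact List.idxOf_lt_length_of_mem hx.1
    · intro i hi
      rw [Finset.mem_Ico] at hi
      exact uBv_pos L R ρ q SA SB gB r vB i (by omega)
  have nR : XR ≠ 0 := by
    rw [hXR]
    apply List.prod_ne_zero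
    intro h
    rw [List.mem_map] at h
    obtain ⟨x, hx, h⟩ := h
    rw [List.mem_filter] at hx
    rw [tv_diff_R L R q hqL _ x (fun h => hLR x (List.mem_append_left _ h) x hx.1 rfl)
      (by rintro rfl; exact hqR hx.1)] at h
    refine PosF.ne_zero (PosF.sum _ ?_ _ ?_) h
    · rw [Finset.nonempty_Ico]; omega
    · intro i hi
      rw [Finset.mem_Ico] at hi
      have := List.idxOf_lt_length_of_mem hx.1
      exact uBv_pos L R ρ q SA SB gB r vB i (by omega)
  obtain ⟨N, hN, hN'⟩ := exponent a d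
  have hf : Lim (RatFunc.C ((∏ i ∈ I, xx (Sum.inl i)) * ((XL ^ d)⁻¹ * (XR ^ d)⁻¹)) *
      (RatFunc.C ppA * F)) ((∏ i ∈ I, xx (Sum.inl i)) * ((XL ^ d)⁻¹ * (XR ^ d)⁻¹) *
      (ppA * (ppB * (XL * XR) ^ a))) := (Lim.C _).mul ((Lim.C _).mul hF)
  set f := RatFunc.C ((∏ i ∈ I, xx (Sum.inl i)) * ((XL ^ d)⁻¹ * (XR ^ d)⁻¹)) *
      (RatFunc.C ppA * F) with hfdef
  have hP' : (genFD L A R ρ q d r SA SB gA gB).P I = sVar _ ^ (-((d * (d + 1) / 2 : ℕ) : ℤ)) *
      (sVar _ ^ N * f) := by
    rw [hP, hfdef]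
    have h1 : sVar (Net.tsum SA SB q).flat.F ^ (-((d * (d + 1) / 2 : ℕ) : ℤ)) *
        sVar (Net.tsum SA SB q).flat.F ^ N =
        sVar (Net.tsum SA SB q).flat.F ^ (-(d : ℤ) * a) *
        sVar (Net.tsum SA SB q).flat.F ^ (a.choose 2) := by
      rw [← zpow_natCast, ← zpow_natCast, ← zpow_add₀ s_ne_zero, ← zpow_add₀ s_ne_zero, hN]
    linear_combination (-1 : RatFunc (Net.tsum SA SB q).flat.F) *
      (RatFunc.C ((∏ i ∈ I, xx (Sum.inl i)) * ((XL ^ d)⁻¹ * (XR ^ d)⁻¹)) *
      (RatFunc.C ppA * F)) * h1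
  by_cases hc : a = d ∨ a = d + 1
  · rw [hN'.mpr hc, pow_zero, one_mul] at hP'
    have hval : (Net.tsum SA SB q).flat.P I = (∏ i ∈ I, xx (Sum.inl i)) *
        ((XL ^ d)⁻¹ * (XR ^ d)⁻¹) * (ppA * (ppB * (XL * XR) ^ a)) := by
      rw [hT]
      rcases hc with hc | hc
      · rw [if_neg (by omega), if_pos hc, zero_add, hc]
        field_simp
        ring
      · rw [if_pos hc, if_neg (by omega), add_zero, hc, pp_q]
        rw [← hppB, ← hXL, ← hXR]
        field_simp
        ring
    obtain ⟨P, hPs⟩ := hf.split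
    refine ⟨P, ?_⟩
    rw [hP', hPs, hval]
  · have h0 : (Net.tsum SA SB q).flat.P I = 0 := by
      rw [hT, if_neg (fun h => hc (Or.inr h)), if_neg (fun h => hc (Or.inl h)), add_zero, mul_zero]
    obtain ⟨n, hn⟩ : ∃ n, N = n + 1 := ⟨N - 1, by
      have : N ≠ 0 := fun h => hc (hN'.mp h)
      omega⟩
    obtain ⟨g, hg, -⟩ := hf
    refine ⟨Polynomial.X ^ n * g, ?_⟩
    rw [hP', h0, hn, map_zero, zero_add, hg, map_mul, map_pow, RatFunc.algebraMap_X, pow_succ]
    ring

end ABCT.H68
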