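import Pool.Agent.Helper32_ABCT.Stmts2

/-!
# LGEN: the chart lattice of a generic vertex (MP_a17fcb_ag)
-/

open MvPolynomial

namespace ABCT.H68

open FlatCell

theorem card_pairs (P : Finset ℕ) :
    ((P ×ˢ P).filter fun p => p.1 < p.2).card = P.card.choose 2 := by
  induction P using Finset.induction_on_max with
  | empty => simp
  | insert a s ha ih =>
    have hs : a ∉ s := fun h => lt_irrefl _ (ha a h)
    have e : ((insert a s ×ˢ insert a s).filter fun p : ℕ × ℕ => p.1 < p.2) =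
        ((s ×ˢ s).filter fun p : ℕ × ℕ => p.1 < p.2) ∪ s.image (fun b => (b, a)) := by
      ext ⟨x, y⟩
      simp only [Finset.mem_filter, Finset.mem_product, Finset.mem_insert, Finset.mem_union,
        Finset.mem_image, Prod.mk.injEq]
      constructor
      · rintro ⟨⟨hx | hx, hy | hy⟩, h⟩
        · omega
        · have := ha y hy; omega
        · exact Or.inr ⟨x, hx, rfl, hy.symm⟩
        · exact Or.inl ⟨⟨hx, hy⟩, h⟩
      · rintro (⟨⟨hx, hy⟩, h⟩ | ⟨b, hb, rfl, rfl⟩)
        · exact ⟨⟨Or.inr hx, Or.inr hy⟩, h⟩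
        · exact ⟨⟨Or.inr hb, Or.inl rfl⟩, ha _ hb⟩
    rw [e, Finset.card_union_of_disjoint, ih, Finset.card_image_of_injective,
      Finset.card_insert_of_notMem hs, Nat.choose_succ_succ' s.card 1, Nat.choose_one_right,
      add_comm]
    · intro x y h; exact (Prod.mk.inj h).1
    · rw [Finset.disjoint_left]
      rintro ⟨x, y⟩ h h'
      simp only [Finset.mem_filter, Finset.mem_product, Finset.mem_image, Prod.mk.injEq] at h h'
      obtain ⟨b, hb, rfl, rfl⟩ := h'
      exact hs h.1.2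

theorem getD_app (l : List ℕ) (ρ a : ℕ) (h : a < l.length) :
    (l ++ [ρ]).getD a 0 = l[a] := by
  rw [List.getD_append _ _ _ _ h, List.getD_eq_getElem _ _ h]

/-- the number of pairs -/
theorem card_prs (l : List ℕ) (ρ : ℕ) (hl : (l ++ [ρ]).Nodup) (I : Finset ℕ)
    (hI : I ⊆ (l ++ [ρ]).toFinset) :
    (Net.prs (l ++ [ρ]) I).card = (I.erase ρ).card.choose 2 := by
  have hlen : (l ++ [ρ]).length - 1 = l.length := by simp
  have e : Net.prs (l ++ [ρ]) I =
      ((((Finset.range l.length).filter fun a => (l ++ [ρ]).getD a 0 ∈ I) ×ˢ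
        ((Finset.range l.length).filter fun a => (l ++ [ρ]).getD a 0 ∈ I)).filter
        fun p => p.1 < p.2) := by
    ext ⟨a, b⟩
    rw [Net.prs, hlen]
    simp only [Finset.mem_filter, Finset.mem_product]
    tauto
  rw [e, card_pairs]
  congr 1
  have hn := List.nodup_append.mp hl
  apply Finset.card_bij (fun a _ => (l ++ [ρ]).getD a 0)
  · intro a ha
    rw [Finset.mem_filter, Finset.mem_range] at ha
    rw [Finset.mem_erase]
    refine ⟨?_, ha.2⟩
    rw [getD_app l ρ a ha.1]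
    intro h
    exact hn.2.2 _ (List.getElem_mem ha.1) ρ (by simp) h
  · intro a ha b hb h
    rw [Finset.mem_filter, Finset.mem_range] at ha hb
    simp only [getD_app l ρ a ha.1, getD_app l ρ b hb.1] at h
    exact (List.Nodup.getElem_inj_iff hn.1).mp h
  · intro x hx
    rw [Finset.mem_erase] at hx
    have h1 := hI hx.2
    rw [List.mem_toFinset, List.mem_append, List.mem_singleton] at h1
    have h2 : x ∈ l := h1.resolve_right hx.1
    obtain ⟨a, ha, rfl⟩ := List.getElem_of_mem h2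
    exact ⟨a, by rw [Finset.mem_filter, Finset.mem_range, getD_app l ρ a ha]; exact ⟨ha, hx.2⟩,
      getD_app l ρ a ha⟩

theorem D_hom (n a b : ℕ) : (Net.D n a b).IsHomogeneous 1 := by
  rw [Net.D]
  exact IsHomogeneous.sum _ _ _ fun i _ => isHomogeneous_X _ _

/-- exponents of `pol I` for `gen` -/
theorem gen_exp (l : List ℕ) (r : ℕ) (I : Finset ℕ) (hI : I ∈ (Net.gen l r).M)
    (μ : (Net.gen l r).flat.V →₀ ℕ) :
    μ ∈ ((Net.gen l r).flat.pol I).support ↔
      ∃ b ∈ (∏ p ∈ Net.prs l I, Net.D (l.length - 2) p.1 p.2).support,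
        μ = (∑ i ∈ I, Finsupp.single (Sum.inl i) 1) + b.mapDomain Sum.inr := by
  classical
  have h1 : (Net.gen l r).flat.Δ I = ∏ p ∈ Net.prs l I, Net.D (l.length - 2) p.1 p.2 := by
    show Net.Δ (Net.gen l r) I = _
    rw [Net.Δ, if_pos hI]
  have h2 : (∏ i ∈ I, (X (Sum.inl i) : MvPolynomial (Net.gen l r).flat.V ℕ)) =
      monomial (∑ i ∈ I, Finsupp.single (Sum.inl i) 1) 1 := by
    rw [monomial_sum_one]
    rfl
  rw [FlatCell.pol, natpoly_support_mul, h1, h2]
  constructor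
  · rintro ⟨a, ha, b, hb, rfl⟩
    rw [support_monomial, if_neg one_ne_zero, Finset.mem_singleton] at ha
    rw [support_rename_of_injective Sum.inr_injective, Finset.mem_image] at hb
    obtain ⟨b', hb', rfl⟩ := hb
    exact ⟨b', hb', by rw [ha]⟩
  · rintro ⟨b, hb, rfl⟩
    refine ⟨_, ?_, _, ?_, rfl⟩
    · rw [support_monomial, if_neg one_ne_zero, Finset.mem_singleton]
    · rw [support_rename_of_injective Sum.inr_injective]
      exact Finset.mem_image_of_mem _ hb

theorem exp_inl {G : Type} (I : Finset ℕ) (b : G →₀ ℕ) (j : ℕ) :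
    ((∑ i ∈ I, Finsupp.single (Sum.inl i : ℕ ⊕ G) 1) + b.mapDomain Sum.inr : ℕ ⊕ G →₀ ℕ)
      (Sum.inl j) = if j ∈ I then 1 else 0 := by
  classical
  rw [Finsupp.add_apply, Finsupp.mapDomain_of_notMem_range, add_zero, Finsupp.finsetSum_apply]
  · simp [Finsupp.single_apply]
  · rintro ⟨x, hx⟩
    cases hx

theorem exp_inr {G : Type} (I : Finset ℕ) (b : G →₀ ℕ) (h : G) :
    ((∑ i ∈ I, Finsupp.single (Sum.inl i : ℕ ⊕ G) 1) + b.mapDomain Sum.inr : ℕ ⊕ G →₀ ℕ)
      (Sum.inr h) = b h := by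
  classical
  rw [Finsupp.add_apply, Finsupp.mapDomain_apply Sum.inr_injective, Finsupp.finsetSum_apply]
  simp [Finsupp.single_apply]

/-- the total gap degree -/
theorem deg_prod (l : List ℕ) (I : Finset ℕ) (b : Fin (l.length - 2) →₀ ℕ)
    (hb : b ∈ (∏ p ∈ Net.prs l I, Net.D (l.length - 2) p.1 p.2).support) :
    ∑ h, b h = (Net.prs l I).card := by
  have h1 : (∏ p ∈ Net.prs l I, Net.D (l.length - 2) p.1 p.2).IsHomogeneous
      (∑ p ∈ Net.prs l I, 1) :=
    IsHomogeneous.prod _ _ _ fun p _ => D_hom _ _ _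
  have h2 := h1 (mem_support_iff.mp hb)
  rw [Finset.sum_const, smul_eq_mul, mul_one] at h2
  rw [← h2, Finsupp.weight_apply, Finsupp.sum_fintype]
  · simp
  · simp

/-- the value of an exponent -/
theorem gen_val (l : List ℕ) (ρ r : ℕ) (hl : (l ++ [ρ]).Nodup) (hr : 2 ≤ r) (I : Finset ℕ)
    (hI : I ∈ (Net.gen (l ++ [ρ]) r).M) (μ : (Net.gen (l ++ [ρ]) r).flat.V →₀ ℕ)
    (hμ : μ ∈ ((Net.gen (l ++ [ρ]) r).flat.pol I).support) :
    (∀ i : ℕ, (zexp μ) (Sum.inl i) = if i ∈ I then 1 else 0) ∧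
    ((∑ h : Fin ((l ++ [ρ]).length - 2), (zexp μ) (Sum.inr h)) +
      (r - 1 : ℤ) * (zexp μ) (Sum.inl ρ) = r.choose 2) := by
  obtain ⟨b, hb, rfl⟩ := (gen_exp _ _ I hI μ).mp hμ
  have h1 := deg_prod _ _ b hb
  have hI' := Finset.mem_powersetCard.mp hI
  rw [card_prs l ρ hl I hI'.1] at h1
  have h0 : ∀ i : ℕ, (zexp ((∑ i ∈ I, Finsupp.single (Sum.inl i : (Net.gen (l ++ [ρ]) r).flat.V) 1) +
      b.mapDomain Sum.inr)) (Sum.inl i) = if i ∈ I then 1 else 0 := by
    intro i
    rw [zexp, Finsupp.mapRange_apply]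
    have := exp_inl I b i
    rw [this]
    split_ifs <;> simp
  refine ⟨h0, ?_⟩
  rw [h0]
  have h2 : ∑ h : Fin ((l ++ [ρ]).length - 2), (zexp ((∑ i ∈ I, Finsupp.single
      (Sum.inl i : (Net.gen (l ++ [ρ]) r).flat.V) 1) + b.mapDomain Sum.inr)) (Sum.inr h) =
      ((∑ h : Fin ((l ++ [ρ]).length - 2), b h : ℕ) : ℤ) := by
    rw [Nat.cast_sum]
    apply Finset.sum_congr rfl
    intro h _
    rw [zexp, Finsupp.mapRange_apply]
    have := exp_inr I b h
    rw [this]
  rw [h2, h1]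
  obtain ⟨k, rfl⟩ : ∃ k, r = k + 1 := ⟨r - 1, by omega⟩
  have h3 : (k + 1).choose 2 = k + k.choose 2 := by
    rw [Nat.choose_succ_succ' k 1, Nat.choose_one_right]
  by_cases h : ρ ∈ I
  · rw [if_pos h, Finset.card_erase_of_mem h, hI'.2, h3]
    push_cast
    ring
  · rw [if_neg h, Finset.erase_eq_of_notMem h, hI'.2, mul_zero, add_zero]

theorem D_supp (n a b : ℕ) (k : Fin n) (h1 : a ≤ k.1) (h2 : k.1 < b) :
    Finsupp.single k 1 ∈ (Net.D n a b).support := by
  classical
  have hk : k ∈ Finset.univ.filter (fun h : Fin n => a ≤ h.1 ∧ h.1 < b) := by simp [h1, h2]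
  rw [Net.D, ← Finset.add_sum_erase _ _ hk, natpoly_support_add]
  left
  rw [support_X]
  exact Finset.mem_singleton_self _

theorem gap_diff (l : List ℕ) (ρ r : ℕ) (hl : (l ++ [ρ]).Nodup) (hr : 2 ≤ r)
    (hlen : r + 2 ≤ (l ++ [ρ]).length) (h h' : Fin ((l ++ [ρ]).length - 2)) (hh : h.1 < h'.1) :
    (Finsupp.single (Sum.inr h) 1 - Finsupp.single (Sum.inr h') 1 :
      (Net.gen (l ++ [ρ]) r).flat.V →₀ ℤ) ∈ (Net.gen (l ++ [ρ]) r).flat.Lam := by
  classical
  have hlen' : (l ++ [ρ]).length = l.length + 1 := by simp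
  have hb := h'.2
  have ha := h.2
  have a1 : h.1 < (l ++ [ρ]).length := by omega
  have a2 : h'.1 + 1 < (l ++ [ρ]).length := by omega
  obtain ⟨I, hI1, hI2, hI3⟩ := Finset.exists_subsuperset_card_eq (n := r)
    (s := {(l ++ [ρ])[h.1], (l ++ [ρ])[h'.1 + 1]}) (t := (l ++ [ρ]).toFinset) (by
      intro x hx
      rw [Finset.mem_insert, Finset.mem_singleton] at hx
      rw [List.mem_toFinset]
      rcases hx with rfl | rfl <;> exact List.getElem_mem _) (Finset.card_le_two.trans hr) (by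
      rw [List.toFinset_card_of_nodup hl]; omega)
  have hI : I ∈ (Net.gen (l ++ [ρ]) r).M := Finset.mem_powersetCard.mpr ⟨hI2, hI3⟩
  have hp : (h.1, h'.1 + 1) ∈ Net.prs (l ++ [ρ]) I := by
    rw [Net.prs, Finset.mem_filter, Finset.mem_product, Finset.mem_range, Finset.mem_range]
    refine ⟨⟨by omega, by omega⟩, by omega, ?_, ?_⟩
    · rw [List.getD_eq_getElem _ _ a1]
      exact hI1 (by simp)
    · rw [List.getD_eq_getElem _ _ a2]
      exact hI1 (by simp)
  obtain ⟨c, hc⟩ := support_nonempty.mpr (natpoly_prod_ne_zero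
    ((Net.prs (l ++ [ρ]) I).erase (h.1, h'.1 + 1))
    (fun p => Net.D ((l ++ [ρ]).length - 2) p.1 p.2) (by
      intro p hp
      have hp := Finset.mem_of_mem_erase hp
      rw [Net.prs, Finset.mem_filter, Finset.mem_product, Finset.mem_range, Finset.mem_range] at hp
      exact D_ne_zero _ _ _ hp.2.1 (by omega)))
  have key : ∀ k : Fin ((l ++ [ρ]).length - 2), h.1 ≤ k.1 → k.1 < h'.1 + 1 →
      ((∑ i ∈ I, Finsupp.single (Sum.inl i) 1) + (Finsupp.single k 1 + c).mapDomain Sum.inr) ∈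
      ((Net.gen (l ++ [ρ]) r).flat.pol I).support := by
    intro k hk1 hk2
    rw [gen_exp _ _ I hI]
    refine ⟨_, ?_, rfl⟩
    rw [← Finset.mul_prod_erase _ _ hp, natpoly_support_mul]
    exact ⟨_, D_supp _ _ _ k hk1 hk2, _, hc, rfl⟩
  apply AddSubgroup.subset_closure
  refine ⟨I, hI, I, hI, _, key h le_rfl (by omega), _, key h' (by omega) (by omega), ?_⟩
  ext v
  rcases v with i | k
  · rw [Finsupp.sub_apply, Finsupp.sub_apply, zexp, zexp, Finsupp.mapRange_apply,
      Finsupp.mapRange_apply]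
    have e1 := exp_inl I (Finsupp.single h 1 + c) i
    have e2 := exp_inl I (Finsupp.single h' 1 + c) i
    rw [e1, e2, sub_self]
    simp
  · rw [Finsupp.sub_apply, Finsupp.sub_apply, zexp, zexp, Finsupp.mapRange_apply,
      Finsupp.mapRange_apply]
    have e1 := exp_inr I (Finsupp.single h 1 + c) k
    have e2 := exp_inr I (Finsupp.single h' 1 + c) k
    rw [e1, e2]
    simp only [Finsupp.add_apply, Finsupp.single_apply, Sum.inr.injEq]
    split_ifs <;> push_cast <;> ring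

theorem gap_diff' (l : List ℕ) (ρ r : ℕ) (hl : (l ++ [ρ]).Nodup) (hr : 2 ≤ r)
    (hlen : r + 2 ≤ (l ++ [ρ]).length) (h h' : Fin ((l ++ [ρ]).length - 2)) :
    (Finsupp.single (Sum.inr h) 1 - Finsupp.single (Sum.inr h') 1 :
      (Net.gen (l ++ [ρ]) r).flat.V →₀ ℤ) ∈ (Net.gen (l ++ [ρ]) r).flat.Lam := by
  rcases lt_trichotomy h.1 h'.1 with h1 | h1 | h1
  · exact gap_diff l ρ r hl hr hlen h h' h1
  · rw [Fin.ext h1, sub_self]
    exact zero_mem _
  · rw [← neg_sub]
    exact neg_mem (gap_diff l ρ r hl hr hlen h' h h1)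

/-- Lemma A -/
theorem gap_sum (l : List ℕ) (ρ r : ℕ) (hl : (l ++ [ρ]).Nodup) (hr : 2 ≤ r)
    (hlen : r + 2 ≤ (l ++ [ρ]).length) (m : (Net.gen (l ++ [ρ]) r).flat.V →₀ ℤ)
    (h1 : ∀ i : ℕ, m (Sum.inl i) = 0)
    (h2 : ∑ h : Fin ((l ++ [ρ]).length - 2), m (Sum.inr h) = 0) :
    m ∈ (Net.gen (l ++ [ρ]) r).flat.Lam := by
  classical
  let h0 : Fin ((l ++ [ρ]).length - 2) := ⟨0, by omega⟩
  have e : m = ∑ h : Fin ((l ++ [ρ]).length - 2), m (Sum.inr h) •
      (Finsupp.single (Sum.inr h) 1 - Finsupp.single (Sum.inr h0) 1 :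
      (Net.gen (l ++ [ρ]) r).flat.V →₀ ℤ) := by
    simp only [smul_sub, Finset.sum_sub_distrib]
    rw [← Finset.sum_smul, h2, zero_smul, sub_zero]
    ext v
    rcases v with i | k
    · rw [h1, Finsupp.finsetSum_apply]
      symm
      apply Finset.sum_eq_zero
      intro h _
      simp
    · rw [Finsupp.finsetSum_apply]
      rw [Finset.sum_eq_single k]
      · simp
      · intro b _ hb
        rw [Finsupp.smul_apply, Finsupp.single_apply, if_neg (by simpa using hb), smul_zero]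
      · intro h; exact absurd (Finset.mem_univ _) h
  rw [e]
  exact sum_mem fun h _ => zsmul_mem (gap_diff' l ρ r hl hr hlen h h0) _

/-- Lemma B -/
theorem label_diff (l : List ℕ) (ρ r : ℕ) (hl : (l ++ [ρ]).Nodup) (hr : 2 ≤ r)
    (hlen : r + 2 ≤ (l ++ [ρ]).length) (i : ℕ) (hi : i ∈ l) :
    ∃ a ∈ (Net.gen (l ++ [ρ]) r).flat.Lam, ∀ j : ℕ,
      a (Sum.inl j) = (if j = i then 1 else 0) - (if j = ρ then 1 else 0) := by
  classical
  have hn := List.nodup_append.mp hl
  have hlen' : (l ++ [ρ]).length = l.length + 1 := by simp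
  have hρ : ρ ∉ l := fun h => hn.2.2 _ h ρ (by simp) rfl
  obtain ⟨K, hK, hK'⟩ := Finset.exists_subset_card_eq (s := l.toFinset.erase i) (n := r - 1) (by
    rw [Finset.card_erase_of_mem (List.mem_toFinset.mpr hi), List.toFinset_card_of_nodup hn.1]
    omega)
  have k1 : i ∉ K := fun h => (Finset.mem_erase.mp (hK h)).1 rfl
  have k2 : ρ ∉ K := fun h => hρ (List.mem_toFinset.mp (Finset.mem_erase.mp (hK h)).2)
  have hI : insert i K ∈ (Net.gen (l ++ [ρ]) r).M := by
    refine Finset.mem_powersetCard.mpr ⟨?_, ?_⟩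
    · intro x hx
      rw [Finset.mem_insert] at hx
      rw [List.mem_toFinset, List.mem_append]
      rcases hx with rfl | hx
      · exact Or.inl hi
      · exact Or.inl (List.mem_toFinset.mp (Finset.mem_erase.mp (hK hx)).2)
    · rw [Finset.card_insert_of_notMem k1, hK']; omega
  have hJ : insert ρ K ∈ (Net.gen (l ++ [ρ]) r).M := by
    refine Finset.mem_powersetCard.mpr ⟨?_, ?_⟩
    · intro x hx
      rw [Finset.mem_insert] at hx
      rw [List.mem_toFinset, List.mem_append]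
      rcases hx with rfl | hx
      · exact Or.inr (by simp)
      · exact Or.inl (List.mem_toFinset.mp (Finset.mem_erase.mp (hK hx)).2)
    · rw [Finset.card_insert_of_notMem k2, hK']; omega
  have w := Net.wf' (Net.gen (l ++ [ρ]) r) ⟨hl, hr, hlen⟩
  have ex : ∀ I ∈ (Net.gen (l ++ [ρ]) r).M, ∃ μ, μ ∈ ((Net.gen (l ++ [ρ]) r).flat.pol I).support := by
    intro I hI
    have hp : (∏ p ∈ Net.prs (l ++ [ρ]) I, Net.D ((l ++ [ρ]).length - 2) p.1 p.2) ≠ 0 := by
      apply natpoly_prod_ne_zero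
      intro p hp
      rw [Net.prs, Finset.mem_filter, Finset.mem_product, Finset.mem_range, Finset.mem_range] at hp
      exact D_ne_zero _ _ _ hp.2.1 (by omega)
    obtain ⟨b, hb⟩ := support_nonempty.mpr hp
    exact ⟨_, (gen_exp _ _ I hI _).mpr ⟨b, hb, rfl⟩⟩
  obtain ⟨μ, hμ⟩ := ex _ hI
  obtain ⟨ν, hν⟩ := ex _ hJ
  refine ⟨zexp μ - zexp ν, AddSubgroup.subset_closure ⟨_, hI, _, hJ, μ, hμ, ν, hν, rfl⟩, ?_⟩
  intro j
  rw [Finsupp.sub_apply, (gen_val l ρ r hl hr _ hI μ hμ).1 j, (gen_val l ρ r hl hr _ hJ ν hν).1 j]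
  have hiρ : i ≠ ρ := by rintro rfl; exact hρ hi
  by_cases e1 : j = i
  · subst e1
    simp [hiρ, k1]
  · by_cases e2 : j = ρ
    · subst e2
      simp [e1, k2]
    · simp [e1, e2]

/-- the conditions form a subgroup -/
def cond (l : List ℕ) (ρ r : ℕ) : AddSubgroup ((Net.gen (l ++ [ρ]) r).flat.V →₀ ℤ) where
  carrier := {m | (∀ i : ℕ, i ∉ l ++ [ρ] → m (Sum.inl i) = 0) ∧
      ∑ i ∈ (l ++ [ρ]).toFinset, m (Sum.inl i) = 0 ∧
      (∑ h : Fin ((l ++ [ρ]).length - 2), m (Sum.inr h)) + (r - 1 : ℤ) * m (Sum.inl ρ) = 0}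
  zero_mem' := by simp
  add_mem' := by
    rintro a b ⟨a1, a2, a3⟩ ⟨b1, b2, b3⟩
    refine ⟨?_, ?_, ?_⟩
    · intro i hi
      rw [Finsupp.add_apply, a1 i hi, b1 i hi, add_zero]
    · simp only [Finsupp.add_apply]
      rw [Finset.sum_add_distrib, a2, b2, add_zero]
    · simp only [Finsupp.add_apply]
      rw [Finset.sum_add_distrib]
      linear_combination a3 + b3
  neg_mem' := by
    rintro a ⟨a1, a2, a3⟩
    refine ⟨?_, ?_, ?_⟩
    · intro i hi
      rw [Finsupp.neg_apply, a1 i hi, neg_zero]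
    · simp only [Finsupp.neg_apply]
      rw [Finset.sum_neg_distrib, a2, neg_zero]
    · simp only [Finsupp.neg_apply]
      rw [Finset.sum_neg_distrib]
      linear_combination -a3

theorem lam_le (l : List ℕ) (ρ r : ℕ) (hl : (l ++ [ρ]).Nodup) (hr : 2 ≤ r) :
    (Net.gen (l ++ [ρ]) r).flat.Lam ≤ cond l ρ r := by
  rw [FlatCell.Lam, AddSubgroup.closure_le]
  rintro m ⟨I, hI, J, hJ, μ, hμ, ν, hν, rfl⟩
  obtain ⟨a1, a2⟩ := gen_val l ρ r hl hr I hI μ hμ
  obtain ⟨b1, b2⟩ := gen_val l ρ r hl hr J hJ ν hν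
  have hI' := Finset.mem_powersetCard.mp hI
  have hJ' := Finset.mem_powersetCard.mp hJ
  refine ⟨?_, ?_, ?_⟩
  · intro i hi
    rw [Finsupp.sub_apply, a1, b1, if_neg, if_neg, sub_self]
    · intro h; exact hi (List.mem_toFinset.mp (hJ'.1 h))
    · intro h; exact hi (List.mem_toFinset.mp (hI'.1 h))
  · simp only [Finsupp.sub_apply]
    rw [Finset.sum_sub_distrib, Finset.sum_congr rfl (fun i _ => a1 i),
      Finset.sum_congr rfl (fun i _ => b1 i), Finset.sum_ite_mem, Finset.sum_ite_mem,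
      Finset.inter_eq_right.mpr hI'.1, Finset.inter_eq_right.mpr hJ'.1]
    simp [hI'.2, hJ'.2]
  · simp only [Finsupp.sub_apply]
    rw [Finset.sum_sub_distrib]
    linear_combination a2 - b2

/-- LGEN -/
theorem lgen : LgenStmt := by
  classical
  intro l ρ r hV m
  obtain ⟨hl, hr, hlen⟩ := hV
  refine ⟨fun h => lam_le l ρ r hl hr h, ?_⟩
  rintro ⟨h1, h2, h3⟩
  have hn := List.nodup_append.mp hl
  have hρ : ρ ∉ l := fun h => hn.2.2 _ h ρ (by simp) rfl
  choose a ha ha' using label_diff l ρ r hl hr hlen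
  let m' : (Net.gen (l ++ [ρ]) r).flat.V →₀ ℤ := ∑ i ∈ l.toFinset.attach,
    m (Sum.inl i.1) • a i.1 (List.mem_toFinset.mp i.2)
  have hm' : m' ∈ (Net.gen (l ++ [ρ]) r).flat.Lam := sum_mem fun i _ => zsmul_mem (ha _ _) _
  have hlab : ∀ j : ℕ, m' (Sum.inl j) = m (Sum.inl j) := by
    intro j
    have e : m' (Sum.inl j) = ∑ i ∈ l.toFinset, m (Sum.inl i) *
        ((if j = i then 1 else 0) - (if j = ρ then 1 else 0)) := by
      rw [← Finset.sum_attach]
      show (∑ i ∈ l.toFinset.attach, m (Sum.inl i.1) • a i.1 (List.mem_toFinset.mp i.2))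
        (Sum.inl j) = _
      rw [Finsupp.finsetSum_apply]
      apply Finset.sum_congr rfl
      intro i _
      rw [Finsupp.smul_apply, ha', smul_eq_mul]
    have e0 : ∑ i ∈ l.toFinset, m (Sum.inl i) + m (Sum.inl ρ) = 0 := by
      rw [List.toFinset_append, Finset.sum_union] at h2
      · simpa using h2
      · rw [Finset.disjoint_left]
        intro x hx hx'
        have hx' : x = ρ := by simpa using hx'
        exact hρ (hx' ▸ List.mem_toFinset.mp hx)
    rw [e]
    by_cases e1 : j ∈ l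
    · have hj : j ≠ ρ := by rintro rfl; exact hρ e1
      simp [hj, e1]
    · have h4 : ∀ i ∈ l.toFinset, m (Sum.inl i) *
          ((if j = i then (1:ℤ) else 0) - (if j = ρ then 1 else 0)) =
          - (if j = ρ then 1 else 0) * m (Sum.inl i) := by
        intro i hi
        have : j ≠ i := by rintro rfl; exact e1 (List.mem_toFinset.mp hi)
        rw [if_neg this]; ring
      rw [Finset.sum_congr rfl h4, ← Finset.mul_sum]
      by_cases e2 : j = ρ
      · subst e2
        rw [if_pos rfl]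
        linear_combination -e0
      · rw [if_neg e2, h1 j (by
          rw [List.mem_append, List.mem_singleton]; rintro (h | h)
          · exact e1 h
          · exact e2 h)]
        simp
  have h5 : m - m' ∈ (Net.gen (l ++ [ρ]) r).flat.Lam := by
    apply gap_sum l ρ r hl hr hlen
    · intro i
      rw [Finsupp.sub_apply, hlab, sub_self]
    · obtain ⟨-, -, c3⟩ := lam_le l ρ r hl hr hm'
      simp only [Finsupp.sub_apply]
      rw [Finset.sum_sub_distrib]
      have := hlab ρ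
      rw [this] at c3
      linear_combination h3 - c3
  have := add_mem h5 hm'
  rwa [sub_add_cancel] at this

end ABCT.H68
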