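import Pool.Agent.Helper32_ABCT.Stmts2

/-!
# Products over pairs of a list (MP_a17fcb_ag)
-/

namespace ABCT.H68

section pairs

variable {K : Type*} [CommSemiring K]

/-- product of `f x y` over the pairs `x` before `y` of the list -/
def pp (f : ℕ → ℕ → K) : List ℕ → K
  | [] => 1
  | x :: l => (l.map (f x)).prod * pp f l

/-- product of `f x y` over `x ∈ l`, `y ∈ l'` -/
def cr (f : ℕ → ℕ → K) (l l' : List ℕ) : K := (l.map fun x => (l'.map (f x)).prod).prod

theorem pp_append (f : ℕ → ℕ → K) (l l' : List ℕ) :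
    pp f (l ++ l') = pp f l * pp f l' * cr f l l' := by
  induction l with
  | nil => simp [pp, cr]
  | cons x l ih =>
    rw [List.cons_append, pp, pp, ih, List.map_append, List.prod_append, cr, cr, List.map_cons,
      List.prod_cons]
    ring

theorem cr_append_left (f : ℕ → ℕ → K) (l₁ l₂ l' : List ℕ) :
    cr f (l₁ ++ l₂) l' = cr f l₁ l' * cr f l₂ l' := by
  rw [cr, cr, cr, List.map_append, List.prod_append]

theorem pp_congr (f g : ℕ → ℕ → K) (l : List ℕ) (h : ∀ x ∈ l, ∀ y ∈ l, f x y = g x y) :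
    pp f l = pp g l := by
  induction l with
  | nil => rfl
  | cons x l ih =>
    rw [pp, pp, ih fun a ha b hb => h a (List.mem_cons_of_mem _ ha) b (List.mem_cons_of_mem _ hb)]
    congr 2
    apply List.map_congr_left
    intro y hy
    exact h x List.mem_cons_self y (List.mem_cons_of_mem _ hy)

theorem cr_congr (f g : ℕ → ℕ → K) (l l' : List ℕ) (h : ∀ x ∈ l, ∀ y ∈ l', f x y = g x y) :
    cr f l l' = cr g l l' := by
  rw [cr, cr]
  congr 1
  apply List.map_congr_left
  intro x hx
  congr 1
  apply List.map_congr_left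
  intro y hy
  exact h x hx y hy

theorem pp_mul (s : K) (f : ℕ → ℕ → K) (l : List ℕ) :
    pp (fun x y => s * f x y) l = s ^ (l.length.choose 2) * pp f l := by
  induction l with
  | nil => simp [pp]
  | cons x l ih =>
    have h : ∀ l : List ℕ, (l.map fun y => s * f x y).prod = s ^ l.length * (l.map (f x)).prod := by
      intro l
      induction l with
      | nil => simp
      | cons y l ih => simp only [List.map_cons, List.prod_cons, ih, List.length_cons]; ring
    rw [pp, pp, ih, h, List.length_cons, Nat.choose_succ_succ' l.length 1, Nat.choose_one_right]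
    ring

theorem cr_left (h : ℕ → K) (l l' : List ℕ) :
    cr (fun x _ => h x) l l' = (l.map h).prod ^ l'.length := by
  rw [cr]
  induction l with
  | nil => simp
  | cons x l ih =>
    rw [List.map_cons, List.prod_cons, ih, List.map_cons, List.prod_cons, mul_pow]
    congr 1
    simp

theorem cr_right (h : ℕ → K) (l l' : List ℕ) :
    cr (fun _ y => h y) l l' = (l'.map h).prod ^ l.length := by
  rw [cr]
  induction l with
  | nil => simp
  | cons x l ih =>
    rw [List.map_cons, List.prod_cons, ih, List.length_cons, pow_succ, mul_comm]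

theorem pp_map {K' : Type*} [CommSemiring K'] (σ : K →+* K') (f : ℕ → ℕ → K) (l : List ℕ) :
    σ (pp f l) = pp (fun x y => σ (f x y)) l := by
  induction l with
  | nil => simp [pp]
  | cons x l ih => rw [pp, pp, map_mul, ih, map_list_prod, List.map_map]; rfl

theorem prod_getD (g : ℕ → K) (l : List ℕ) :
    ∏ b ∈ Finset.range l.length, g (l.getD b 0) = (l.map g).prod := by
  induction l with
  | nil => simp
  | cons x l ih =>
    rw [List.length_cons, Finset.prod_range_succ', List.map_cons, List.prod_cons, ← ih, mul_comm]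
    congr 1

theorem prsAll_prod (f : ℕ → ℕ → K) (l : List ℕ) (I : Finset ℕ) :
    ∏ p ∈ prsAll l I, f (l.getD p.1 0) (l.getD p.2 0) = pp f (l.filter (· ∈ I)) := by
  rw [prsAll, Finset.prod_filter, Finset.prod_product]
  induction l with
  | nil => simp [pp]
  | cons x l ih =>
    rw [List.length_cons, Finset.prod_range_succ']
    have e1 : ∀ a ∈ Finset.range l.length, (∏ b ∈ Finset.range (l.length + 1),
        if ((a + 1, b) : ℕ × ℕ).1 < ((a + 1, b) : ℕ × ℕ).2 ∧
          (x :: l).getD ((a + 1, b) : ℕ × ℕ).1 0 ∈ I ∧ (x :: l).getD ((a + 1, b) : ℕ × ℕ).2 0 ∈ I then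
          f ((x :: l).getD ((a + 1, b) : ℕ × ℕ).1 0) ((x :: l).getD ((a + 1, b) : ℕ × ℕ).2 0)
          else 1) = ∏ b ∈ Finset.range l.length,
        if ((a, b) : ℕ × ℕ).1 < ((a, b) : ℕ × ℕ).2 ∧
          l.getD ((a, b) : ℕ × ℕ).1 0 ∈ I ∧ l.getD ((a, b) : ℕ × ℕ).2 0 ∈ I then
          f (l.getD ((a, b) : ℕ × ℕ).1 0) (l.getD ((a, b) : ℕ × ℕ).2 0) else 1 := by
      intro a _
      rw [Finset.prod_range_succ']
      simp
    rw [Finset.prod_congr rfl e1, ih, Finset.prod_range_succ']
    by_cases hx : x ∈ I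
    · rw [List.filter_cons_of_pos (by simpa using hx), pp, mul_comm]
      congr 1
      rw [← prod_getD, ]
      simp only [List.getD_cons_zero, List.getD_cons_succ, hx, true_and]
      have := prod_getD (fun y => if y ∈ I then f x y else 1) l
      have h2 : ∀ l : List ℕ, (l.map fun y => if y ∈ I then f x y else 1).prod =
          ((l.filter (· ∈ I)).map (f x)).prod := by
        intro l
        induction l with
        | nil => simp
        | cons y l ih =>
          rw [List.map_cons, List.prod_cons, ih]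
          by_cases hy : y ∈ I
          · rw [List.filter_cons_of_pos (by simpa using hy), if_pos hy, List.map_cons,
              List.prod_cons]
          · rw [List.filter_cons_of_neg (by simpa using hy), if_neg hy, one_mul]
      rw [prod_getD, ← h2, ← this]
      simp
    · rw [List.filter_cons_of_neg (by simpa using hx)]
      simp [hx]

theorem prs_eq (l : List ℕ) (ρ : ℕ) (I : Finset ℕ) : Net.prs (l ++ [ρ]) I = prsAll l I := by
  ext ⟨a, b⟩
  have hlen : (l ++ [ρ]).length - 1 = l.length := by simp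
  rw [Net.prs, prsAll, hlen]
  simp only [Finset.mem_filter, Finset.mem_product, Finset.mem_range]
  constructor
  · rintro ⟨⟨h1, h2⟩, h3, h4, h5⟩
    rw [List.getD_append _ _ _ _ h1] at h4
    rw [List.getD_append _ _ _ _ h2] at h5
    exact ⟨⟨h1, h2⟩, h3, h4, h5⟩
  · rintro ⟨⟨h1, h2⟩, h3, h4, h5⟩
    rw [List.getD_append _ _ _ _ h1, List.getD_append _ _ _ _ h2]
    exact ⟨⟨h1, h2⟩, h3, h4, h5⟩

end pairs

/-- partial sums as a function of the label -/
def tv {K : Type*} [CommRing K] (l : List ℕ) (u : ℕ → K) (x : ℕ) : K :=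
  ∑ h ∈ Finset.range (l.idxOf x), u h

/-- the product over `prs` as a pair product -/
theorem prs_prod {K : Type*} [CommRing K] (l : List ℕ) (ρ : ℕ) (hl : l.Nodup) (u : ℕ → K)
    (I : Finset ℕ) :
    ∏ p ∈ Net.prs (l ++ [ρ]) I, ∑ h ∈ Finset.Ico p.1 p.2, u h =
      pp (fun x y => tv l u y - tv l u x) (l.filter (· ∈ I)) := by
  rw [prs_eq, ← prsAll_prod]
  apply Finset.prod_congr rfl
  rintro ⟨a, b⟩ hp
  rw [prsAll, Finset.mem_filter, Finset.mem_product, Finset.mem_range, Finset.mem_range] at hp
  obtain ⟨⟨h1, h2⟩, h3, -, -⟩ := hp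
  simp only at h1 h2 h3 ⊢
  rw [Finset.sum_Ico_eq_sub _ h3.le, List.getD_eq_getElem _ _ h1, List.getD_eq_getElem _ _ h2, tv,
    tv, hl.idxOf_getElem, hl.idxOf_getElem]

/-- evaluation of `D` -/
theorem eval_D {K : Type*} [CommSemiring K] (n a b : ℕ) (hb : b ≤ n) (u : ℕ → K) :
    MvPolynomial.eval₂ (Nat.castRingHom K) (fun h : Fin n => u h.1) (Net.D n a b) =
      ∑ h ∈ Finset.Ico a b, u h := by
  rw [Net.D, MvPolynomial.eval₂_sum, Finset.sum_filter]
  simp only [MvPolynomial.eval₂_X]
  rw [Fin.sum_univ_eq_sum_range (fun h => if a ≤ h ∧ h < b then u h else 0) n,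
    ← Finset.sum_filter]
  apply Finset.sum_congr _ fun _ _ => rfl
  ext h
  rw [Finset.mem_filter, Finset.mem_range, Finset.mem_Ico]
  omega

/-- evaluation of `Δ` of `gen` -/
theorem eval_gen {K : Type*} [CommSemiring K] (l : List ℕ) (r : ℕ) (u : ℕ → K) (I : Finset ℕ)
    (hI : I ∈ (Net.gen l r).M) :
    MvPolynomial.eval₂ (Nat.castRingHom K) (fun h : Fin (l.length - 2) => u h.1)
      (Net.Δ (Net.gen l r) I) = ∏ p ∈ Net.prs l I, ∑ h ∈ Finset.Ico p.1 p.2, u h := by
  rw [Net.Δ, if_pos hI, MvPolynomial.eval₂_prod]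
  apply Finset.prod_congr rfl
  intro p hp
  rw [Net.prs, Finset.mem_filter, Finset.mem_product, Finset.mem_range, Finset.mem_range] at hp
  exact eval_D _ _ _ (by omega) u

end ABCT.H68
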